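import Pool.Agent.H98.SFB.AlgH
import Pool.Agent.H85.SB.Exa
import Pool.Agent.H4.SFM.Mrg
import Pool.Agent.H85.SF.Fin

/-!
# MP_821da1_nt, Q1: integer points, one algorithm

1. One partial recursive function of the list of the terms of `F ∈ ℤ[x,y]`; every output bounds all integer zeros of `F`; it is
   defined for every absolutely irreducible `F`
   - of the form `b x^n - a y^n + R(x,y)`, `deg R < n`, `a ≠ b` coprime, `|a - b|^n b^(2+τ) ≤ b^n`, `log b ≥ 10^6 n^4 / τ^3`, or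
   - which has two places at infinity over `ℚ`, or
   - of genus at most `g`, all of whose real points at infinity carry a zero of a polynomial `q`, special for `300 (deg F + g)`, or
   - of genus at most `g`, all of whose real points at infinity carry an `r`-th root of `a/b`, `a ≠ b` coprime,
     `|a - b|^r b^(2+τ) ≤ b^r`, `log b ≥ 10^6 r (deg F) (g+2) / τ^3`, `0 < τ ≤ 1`
   (nothing but `F` is given to the algorithm).
2. For each `n` there is one `C` such that no special `p` (monic, irreducible, all real zeros very close to rational numbers) is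
   exceptional: all integer points of these curves satisfy `max(|x|,|y|) ≤ (B H)^C`.
3. `X^r - a X^(r-1) - 1` is special for odd `r ≥ 3`, `a ≥ 2^r`, `2 κ ≤ (r-1)^2`.
4. The radicals `(a/b)^(1/r)`: not exceptional if `a/b` is close to `1`, and few are exceptional.

`Exceptional q n g C T`: some polynomial `F ∈ ℤ[x,y]` of total degree at most `n`, irreducible over `ℚ`, of genus at most `g`
(`GenusLE`), all of whose points at infinity over number fields with a real embedding carry a zero of `q` (`AtInf`), with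
coefficients of absolute value at most `H`, `H ≥ 2`, has an integer point with `max(|x|,|y|) > (T H)^C`.
`OnePlace F`: the function field of the curve `F = 0` over `ℚ` has at most one place at infinity.
-/

namespace Pool.Agent.Results.MP_821da1_nt.SpecialFields

open Pool.Agent.H4.SFM Pool.Agent.H85.SF

theorem result :
    (∃ A : List (ℕ × ℕ × ℕ × ℕ) →. ℕ, Partrec A ∧ ∀ (c : List (ℕ × ℕ × ℕ × ℕ)) (F : MvPolynomial (Fin 2) ℤ),
      F = (c.map fun t => MvPolynomial.C ((t.1 : ℤ) - (t.2.1 : ℤ)) * MvPolynomial.X 0 ^ t.2.2.1 *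
          MvPolynomial.X 1 ^ t.2.2.2).sum →
        (∀ b ∈ A c, ∀ x y : ℤ, MvPolynomial.eval ![x, y] F = 0 → max |x| |y| ≤ (b : ℤ)) ∧
        (Irreducible (MvPolynomial.map (Int.castRingHom (AlgebraicClosure ℚ)) F) →
          ((∃ (n a b : ℕ) (τ : ℝ) (R : MvPolynomial (Fin 2) ℤ), Nat.Coprime a b ∧ a ≠ b ∧ 1 ≤ a ∧ 1 ≤ b ∧
              0 < τ ∧ τ ≤ 1 ∧ |(a : ℝ) - b| ^ n * (b : ℝ) ^ (2 + τ) ≤ (b : ℝ) ^ n ∧
              10 ^ 6 * (n : ℝ) ^ 4 ≤ τ ^ 3 * Real.log b ∧ R.totalDegree < n ∧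
              F = MvPolynomial.C (b : ℤ) * MvPolynomial.X 0 ^ n -
                MvPolynomial.C (a : ℤ) * MvPolynomial.X 1 ^ n + R) ∨
            ¬ Pool.Agent.H85.SA.OnePlace F ∨
            (∃ (q : Polynomial ℤ) (B g : ℕ), Special q B (300 * (F.totalDegree + g)) ∧ AtInf q F ∧ GenusLE F g) ∨
            ∃ (r a b g : ℕ) (τ : ℝ), Nat.Coprime a b ∧ a ≠ b ∧ 1 ≤ r ∧ 1 ≤ a ∧ 1 ≤ b ∧ 0 < τ ∧ τ ≤ 1 ∧
              |(a : ℝ) - b| ^ r * (b : ℝ) ^ (2 + τ) ≤ (b : ℝ) ^ r ∧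
              10 ^ 6 * ((r * F.totalDegree * (g + 2) : ℕ) : ℝ) ≤ τ ^ 3 * Real.log b ∧
              AtInf (rad r a b) F ∧ GenusLE F g) → (A c).Dom)) ∧
    (∀ n : ℕ, ∃ C : ℕ, ∀ (g B : ℕ) (p : Polynomial ℤ), Special p B (300 * (n + g)) → ¬ Exceptional p n g C B) ∧
    (∀ r a κ : ℕ, Odd r → 3 ≤ r → 2 ^ r ≤ a → 2 * κ ≤ (r - 1) ^ 2 →
      Special (Polynomial.X ^ r - Polynomial.C (a : ℤ) * Polynomial.X ^ (r - 1) - 1) (2 * a) κ) ∧
    ∀ (r n : ℕ) (δ : ℝ), 3 ≤ r → 3 ≤ n → 0 < δ → ∃ C : ℕ, 1 ≤ C ∧ ∀ g : ℕ,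
      (δ < 1 - 2 / r → ∀ a b : ℕ, Nat.Coprime a b → a ≠ b → C ≤ b → |(a : ℝ) - b| ≤ (b : ℝ) ^ δ →
        ¬ Exceptional (rad r a b) n g C b) ∧
      (5 ≤ r → δ < 1 - 9 / (2 * r) →
        (∀ X b : ℕ, C ≤ X → 1 ≤ b → {a : ℕ | X ≤ a ∧ (a : ℝ) ≤ X + (X : ℝ) ^ δ ∧
          Exceptional (rad r a b) n g C X}.Subsingleton) ∧
        ∀ T b : ℕ, 1 ≤ T → 1 ≤ b →
          ({a : ℕ | 1 ≤ a ∧ a ≤ T ∧ Exceptional (rad r a b) n g C T}.ncard : ℝ) ≤ C * (T : ℝ) ^ (1 - δ)) := by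
  obtain ⟨A, hA, h⟩ := Pool.Agent.H98.SFB.algH
  refine ⟨⟨A, hA, fun c F hF => ?_⟩, merge sf⟩
  subst hF
  obtain ⟨h1, h2⟩ := h c
  refine ⟨h1, fun hirr hc => h2 hirr ?_⟩
  rcases hc with ⟨n, a, b, τ, R, hco, hab, ha, hb, h0, h1, hcl, hlog, hR, hF⟩ | hc | hc |
    ⟨r, a, b, g, τ, hco, hab, hr, ha, hb, h0, h1, hcl, hlog, hat, hg⟩
  · refine Or.inr (Or.inr ?_)
    have h3 := Pool.Agent.H85.SB.exa hco hab ha hb h0 h1 hR hcl hlog
    rw [← hF] at h3
    exact h3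
  · exact Or.inl hc
  · exact Or.inr (Or.inl hc)
  · exact Or.inr (Or.inr ⟨r, a, b, g, τ, hco, hab, hr, ha, hb, h0, h1, hcl, hlog, hat, Or.inl hg⟩)

end Pool.Agent.Results.MP_821da1_nt.SpecialFields
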